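import Pool.Agent.H121.GA.IfA
import Pool.Agent.H284.Z987.Hutri

/-! Changing the clip level (statement `S_clip` of the project GA). -/

set_option autoImplicit false
set_option linter.unusedSectionVars false

open scoped BigOperators InnerProductSpace Topology ENNReal
open Filter MeasureTheory

namespace Pool.Agent.H860.GA

open Pool.Agent.Y662.TR (LL Cf Mw dv hu clp clp_eq clp_abs ll_sum ll_inner ll_coord ll_ext Mw_apply
  Mw_sa sub_coord add_coord smul_coord inner_dv dv_self norm_dv)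
open Pool.Agent.TH369.AN (Rz rz_eq rz_norm)
open Pool.Agent.H987.Z (Rs Gr)
open Pool.Agent.H121.GA

section op

variable {ι : Type}

theorem clp_le (b v : ℝ) : |clp b v| ≤ |v| := by
  have h := abs_nonneg b
  unfold clp
  rw [abs_le]
  constructor
  · refine le_trans ?_ (le_max_right _ _)
    refine le_min ?_ (neg_abs_le v)
    linarith [abs_nonneg v]
  · exact max_le (by linarith [abs_nonneg v]) ((min_le_right _ _).trans (le_abs_self v))

theorem clp_dom {b b' v : ℝ} (hb : 0 < b) (hbb : b ≤ b') :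
    b * |clp b' v - clp b v| ≤ |clp b v| * |clp b' v| := by
  have hb' : 0 < b' := hb.trans_le hbb
  by_cases h : |v| ≤ b
  · have h1 : clp b v = v := clp_eq (by rwa [abs_of_pos hb])
    have h2 : clp b' v = v := clp_eq (by rw [abs_of_pos hb']; linarith)
    rw [h1, h2, sub_self, abs_zero, mul_zero]
    positivity
  · have h := not_le.1 h
    rcases lt_abs.1 h with h3 | h3
    · have h1 : clp b v = b := by
        unfold clp
        rw [abs_of_pos hb, min_eq_left h3.le, max_eq_right (by linarith)]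
      have h2 : clp b' v = min b' v := by
        unfold clp
        rw [abs_of_pos hb', max_eq_right]
        exact le_min (by linarith) (by linarith)
      have h4 : b ≤ min b' v := le_min hbb h3.le
      rw [h1, h2, abs_of_pos hb, abs_of_nonneg (by linarith), abs_of_nonneg (by linarith)]
      nlinarith
    · have h1 : clp b v = -b := by
        unfold clp
        rw [abs_of_pos hb, min_eq_right (by linarith), max_eq_left (by linarith)]
      have h2 : clp b' v = max (-b') v := by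
        unfold clp
        rw [abs_of_pos hb', min_eq_right (by linarith)]
      have h4 : max (-b') v ≤ -b := max_le (by linarith) (by linarith)
      rw [h1, h2, abs_neg, abs_of_pos hb, abs_of_nonpos (by linarith), abs_of_nonpos (by linarith)]
      nlinarith

variable {T : LL ι →L[ℂ] LL ι} {h0 θ r b : ℝ} {V : ι → ℝ} {z : ℂ}

theorem hw_sa (hT : IsSelfAdjoint T) (b : ℝ) (V : ι → ℝ) : IsSelfAdjoint (HW T b V) :=
  hT.add (Mw_sa b V)

theorem hw_apply (u : LL ι) : HW T b V u = T u + Mw b V u := rfl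

theorem rz_le (hT : IsSelfAdjoint T) (hθ : 0 < θ) (hz : θ ≤ |z.im|) (x : ι) :
    ‖Rz (HW T b V) z (dv x)‖ ≤ 1 / θ := by
  have hz0 : z.im ≠ 0 := by
    intro h
    rw [h, abs_zero] at hz
    linarith
  have h1 := rz_norm (HW T b V) (hw_sa hT b V) z hz0 (dv x)
  rw [norm_dv] at h1
  exact h1.trans (one_div_le_one_div_of_le hθ hz)

theorem vb_le (hT : IsSelfAdjoint T) (hn : ‖T‖ ≤ h0) (hθ : 0 < θ) (hz : θ ≤ |z.im|)
    (hr : ‖z‖ ≤ r) (x : ι) :
    ‖Mw b V (Rz (HW T b V) z (dv x))‖ ≤ 1 + (r + h0) / θ := by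
  have hz0 : z.im ≠ 0 := by
    intro h
    rw [h, abs_zero] at hz
    linarith
  have h1 := rz_eq (HW T b V) (hw_sa hT b V) z hz0 (dv x)
  have h2 := rz_le (b := b) (V := V) hT hθ hz x
  generalize Rz (HW T b V) z (dv x) = u at h1 h2 ⊢
  rw [hw_apply] at h1
  have h3 : Mw b V u = dv x + z • u - T u := by
    rw [← h1]
    abel
  rw [h3]
  have h4 : ‖z • u‖ ≤ r * (1 / θ) := by
    rw [norm_smul]
    exact mul_le_mul hr h2 (norm_nonneg _) ((norm_nonneg z).trans hr)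
  have h5 : ‖T u‖ ≤ h0 * (1 / θ) :=
    (T.le_opNorm u).trans (mul_le_mul hn h2 (norm_nonneg _) ((norm_nonneg T).trans hn))
  have h6 : ‖dv x + z • u - T u‖ ≤ ‖dv x‖ + ‖z • u‖ + ‖T u‖ :=
    (norm_sub_le _ _).trans (by gcongr; exact norm_add_le _ _)
  rw [norm_dv] at h6
  calc _ ≤ _ := h6
    _ ≤ 1 + r * (1 / θ) + h0 * (1 / θ) := by gcongr
    _ = _ := by ring

theorem sym_hw (hT : IsSelfAdjoint T) (u v : LL ι) :
    ⟪HW T b V u, v⟫_ℂ = ⟪u, HW T b V v⟫_ℂ :=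
  (ContinuousLinearMap.isSelfAdjoint_iff_isSymmetric.1 (hw_sa hT b V)) u v

theorem gdiff (hT : IsSelfAdjoint T) (hn : ‖T‖ ≤ h0) {b b' : ℝ} (hb : 0 < b) (hbb : b ≤ b')
    (hθ : 0 < θ) (hz : θ ≤ z.im) (hr : ‖z‖ ≤ r) (x : ι) :
    ‖Gr (HW T b V) z x x - Gr (HW T b' V) z x x‖ ≤ (1 + (r + h0) / θ) ^ 2 / b := by
  have hz1 : θ ≤ |z.im| := hz.trans (le_abs_self _)
  have hz2 : θ ≤ |(starRingEnd ℂ z).im| := by
    rw [Complex.conj_im, abs_neg]
    exact hz1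
  have hr2 : ‖starRingEnd ℂ z‖ ≤ r := by rwa [Complex.norm_conj]
  have hz0 : z.im ≠ 0 := by linarith
  have hz3 : (starRingEnd ℂ z).im ≠ 0 := by
    rw [Complex.conj_im]
    exact neg_ne_zero.2 hz0
  have n1 := vb_le (b := b) (V := V) hT hn hθ hz2 hr2 x
  have n2 := vb_le (b := b') (V := V) hT hn hθ hz1 hr x
  have e1 := rz_eq (HW T b V) (hw_sa hT b V) (starRingEnd ℂ z) hz3 (dv x)
  have e2 := rz_eq (HW T b' V) (hw_sa hT b' V) z hz0 (dv x)
  have e3 := rz_eq (HW T b V) (hw_sa hT b V) z hz0 (dv x)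
  unfold Gr
  rw [← inner_dv x (Rz (HW T b V) z (dv x)), ← inner_dv x (Rz (HW T b' V) z (dv x))]
  generalize Rz (HW T b V) (starRingEnd ℂ z) (dv x) = w at n1 e1
  generalize Rz (HW T b' V) z (dv x) = u' at n2 e2 ⊢
  generalize Rz (HW T b V) z (dv x) = u at e3 ⊢
  have k1 : ∀ v : LL ι, ⟪dv x, v⟫_ℂ = ⟪w, HW T b V v - z • v⟫_ℂ := by
    intro v
    rw [← e1, inner_sub_left, inner_sub_right, sym_hw hT, inner_smul_left, inner_smul_right,
      Complex.conj_conj]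
  have k2 : ⟪dv x, u⟫_ℂ - ⟪dv x, u'⟫_ℂ = ⟪w, Mw b' V u' - Mw b V u'⟫_ℂ := by
    rw [k1 u, k1 u', e3, ← inner_sub_right]
    congr 1
    rw [← e2, hw_apply, hw_apply]
    abel
  rw [k2, ← (ll_inner w (Mw b' V u' - Mw b V u')).tsum_eq]
  have s1 := ll_sum (Mw b V w)
  have s2 := ll_sum (Mw b' V u')
  have s3 := (s1.add s2).mul_left (1 / (2 * b))
  refine (tsum_of_norm_bounded s3 fun y => ?_).trans ?_
  · rw [sub_coord, Mw_apply, Mw_apply, Mw_apply, ← sub_mul, ← Complex.ofReal_sub,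
      norm_mul, norm_mul, norm_mul, norm_mul, Complex.norm_conj, Complex.norm_real,
      Complex.norm_real, Complex.norm_real, Real.norm_eq_abs, Real.norm_eq_abs, Real.norm_eq_abs]
    have d1 := clp_dom (v := V y) hb hbb
    have d2 : |clp b' (V y) - clp b (V y)| ≤ (|clp b (V y)| * |clp b' (V y)|) / b := by
      rw [le_div_iff₀ hb]
      linarith
    calc ‖w y‖ * (|clp b' (V y) - clp b (V y)| * ‖u' y‖)
        ≤ ‖w y‖ * (((|clp b (V y)| * |clp b' (V y)|) / b) * ‖u' y‖) := by gcongr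
      _ = 1 / b * ((|clp b (V y)| * ‖w y‖) * (|clp b' (V y)| * ‖u' y‖)) := by ring
      _ ≤ 1 / b * (((|clp b (V y)| * ‖w y‖) ^ 2 + (|clp b' (V y)| * ‖u' y‖) ^ 2) / 2) := by
        gcongr
        nlinarith [sq_nonneg (|clp b (V y)| * ‖w y‖ - |clp b' (V y)| * ‖u' y‖)]
      _ = _ := by
        field_simp
  · have m1 : ‖Mw b V w‖ ^ 2 ≤ (1 + (r + h0) / θ) ^ 2 := pow_le_pow_left₀ (norm_nonneg _) n1 2
    have m2 : ‖Mw b' V u'‖ ^ 2 ≤ (1 + (r + h0) / θ) ^ 2 := pow_le_pow_left₀ (norm_nonneg _) n2 2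
    calc 1 / (2 * b) * (‖Mw b V w‖ ^ 2 + ‖Mw b' V u'‖ ^ 2)
        ≤ 1 / (2 * b) * ((1 + (r + h0) / θ) ^ 2 + (1 + (r + h0) / θ) ^ 2) := by gcongr
      _ = _ := by
        field_simp
        ring

theorem gdiff' (hT : IsSelfAdjoint T) (hn : ‖T‖ ≤ h0) {b0 b b' : ℝ} (h0b : 0 < b0) (hb : b0 ≤ b)
    (hb' : b0 ≤ b') (hθ : 0 < θ) (hz : θ ≤ z.im) (hr : ‖z‖ ≤ r) (x : ι) :
    ‖Gr (HW T b' V) z x x - Gr (HW T b V) z x x‖ ≤ (1 + (r + h0) / θ) ^ 2 / b0 := by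
  rcases le_total b b' with h | h
  · rw [norm_sub_rev]
    refine (gdiff hT hn (h0b.trans_le hb) h hθ hz hr x).trans ?_
    gcongr
  · refine (gdiff hT hn (h0b.trans_le hb') h hθ hz hr x).trans ?_
    gcongr

theorem gim (hT : IsSelfAdjoint T) (hn : ‖T‖ ≤ h0) (hθ : 0 < θ) (hz : θ ≤ z.im)
    (hr : ‖z‖ ≤ r) (x : ι) :
    θ / (|V x| + (h0 + r)) ^ 2 ≤ (Gr (HW T b V) z x x).im ∧ ‖Gr (HW T b V) z x x‖ ≤ 1 / θ := by
  have hz1 : θ ≤ |z.im| := hz.trans (le_abs_self _)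
  have hz0 : z.im ≠ 0 := by linarith
  have h1 : (inner ℂ (dv x) (Rz (HW T b V) z (dv x))).im = z.im * ‖Rz (HW T b V) z (dv x)‖ ^ 2 :=
    Pool.Agent.H12R2.And.im_inner (hw_sa hT b V) hz0 (dv x)
  have e1 := rz_eq (HW T b V) (hw_sa hT b V) z hz0 (dv x)
  have h2 := rz_le (b := b) (V := V) hT hθ hz1 x
  rw [inner_dv] at h1
  unfold Gr
  generalize Rz (HW T b V) z (dv x) = u at h1 e1 h2 ⊢
  refine ⟨?_, (ll_coord u x).trans h2⟩
  rw [h1]
  have e2 : T u x + ((clp b (V x) : ℝ) : ℂ) * u x - z * u x = 1 := by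
    have h3 : (HW T b V u - z • u : LL ι) x = (dv x : LL ι) x := by rw [e1]
    rw [sub_coord, smul_coord, dv_self, hw_apply, add_coord, Mw_apply] at h3
    exact h3
  have h3 : ‖T u x‖ ≤ h0 * ‖u‖ :=
    (ll_coord (T u) x).trans ((T.le_opNorm u).trans (mul_le_mul_of_nonneg_right hn (norm_nonneg _)))
  have h4 : ‖((clp b (V x) : ℝ) : ℂ) * u x‖ ≤ |V x| * ‖u‖ := by
    rw [norm_mul, Complex.norm_real, Real.norm_eq_abs]
    exact mul_le_mul (clp_le _ _) (ll_coord u x) (norm_nonneg _) (abs_nonneg _)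
  have h5 : ‖z * u x‖ ≤ r * ‖u‖ := by
    rw [norm_mul]
    exact mul_le_mul hr (ll_coord u x) (norm_nonneg _) ((norm_nonneg z).trans hr)
  have h6 : 1 ≤ (|V x| + (h0 + r)) * ‖u‖ := by
    have h7 : ‖(1 : ℂ)‖ ≤ ‖T u x‖ + ‖((clp b (V x) : ℝ) : ℂ) * u x‖ + ‖z * u x‖ := by
      rw [← e2]
      exact (norm_sub_le _ _).trans (by gcongr; exact norm_add_le _ _)
    rw [norm_one] at h7
    linarith
  have hS : 0 < |V x| + (h0 + r) := by
    by_contra hneg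
    have : (|V x| + (h0 + r)) * ‖u‖ ≤ 0 :=
      mul_nonpos_of_nonpos_of_nonneg (not_lt.1 hneg) (norm_nonneg _)
    linarith
  rw [div_le_iff₀ (by positivity)]
  have h7 : 1 ≤ ((|V x| + (h0 + r)) * ‖u‖) ^ 2 := one_le_pow₀ h6
  calc θ ≤ z.im * 1 := by linarith
    _ ≤ z.im * ((|V x| + (h0 + r)) * ‖u‖) ^ 2 := by
      have : 0 ≤ z.im := by linarith
      gcongr
    _ = _ := by ring

end op

theorem hu_le {a g : ℂ} {D p q : ℝ} (hp : 0 < p) (hq : 0 < q) (ha : p ≤ a.im) (hg : q ≤ g.im)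
    (hD : ‖a - g‖ ≤ D) : hu a g ^ 2 ≤ (D ^ 2 / (p * q)) ^ 2 := by
  have h1 : 0 < a.im := hp.trans_le ha
  have h2 : 0 < g.im := hq.trans_le hg
  unfold hu
  gcongr

theorem clip : S_clip := by
  intro θ ε h0 ρ c C hθ hε hh0 hρ hc hC
  obtain ⟨K, hK, hhu⟩ := Pool.Agent.H284.Z987.hutri (min ε 1) (by positivity) (min_le_right _ _)
  obtain ⟨r, hr⟩ : ∃ r, r = ρ + 2 := ⟨_, rfl⟩
  obtain ⟨L, hL⟩ : ∃ L, L = 1 + (r + h0) / θ := ⟨_, rfl⟩
  obtain ⟨C1, hC1⟩ : ∃ C1, C1 = h0 + r := ⟨_, rfl⟩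
  obtain ⟨M, hM⟩ : ∃ M, M = (1 / θ + C) ^ 4 / (θ ^ 2 * c ^ 2) := ⟨_, rfl⟩
  obtain ⟨B, hB⟩ : ∃ B, B = K * ((L ^ 2) ^ 4 / θ ^ 4) * (1 + M) * (2 ^ 11 * (1 + C1 ^ 12)) := ⟨_, rfl⟩
  have hr0 : 2 < r := by linarith
  have hL0 : 0 < L := by rw [hL]; positivity
  have hC10 : 1 ≤ C1 := by linarith
  have hM0 : 0 < M := by rw [hM]; positivity
  have hB0 : 0 < B := by rw [hB]; positivity
  refine ⟨max 1 (B / ε), le_max_left _ _, ?_⟩
  intro ι Ω _ _ P _ T V x hRs hTn hmeas hVm hV12 b b' hb hb' z g hz1 hz2 hz3 hg1 hg2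
  obtain ⟨b0, hb0⟩ : ∃ b0, b0 = max 1 (B / ε) := ⟨_, rfl⟩
  rw [← hb0] at hb hb'
  have hb01 : 1 ≤ b0 := by rw [hb0]; exact le_max_left _ _
  have hb02 : B / ε ≤ b0 := by rw [hb0]; exact le_max_right _ _
  have hb00 : 0 < b0 := by linarith
  have hzr : ‖z‖ ≤ r := by
    have h1 := Complex.norm_le_abs_re_add_abs_im z
    have h2 : |z.im| = z.im := abs_of_nonneg (by linarith)
    rw [h2] at h1
    linarith
  -- the moment
  have hS1 : ∀ ω, (|V ω x| + C1) ^ 12 ≤ 2 ^ 11 * (V ω x ^ 12 + C1 ^ 12) := by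
    intro ω
    have h1 := add_pow_le (abs_nonneg (V ω x)) (by linarith : (0 : ℝ) ≤ C1) 12
    have h2 : |V ω x| ^ 12 = V ω x ^ 12 := by
      rw [← abs_pow, abs_of_nonneg]
      exact Even.pow_nonneg (by decide) _
    rw [h2] at h1
    exact h1
  have hI12 : Integrable (fun ω => V ω x ^ 12) P := by
    refine ⟨(hVm.pow_const 12).aestronglyMeasurable, ?_⟩
    rw [hasFiniteIntegral_iff_ofReal (Eventually.of_forall fun ω => Even.pow_nonneg (by decide) _)]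
    exact hV12.trans_lt ENNReal.one_lt_top
  have hI12' : ∫ ω, V ω x ^ 12 ∂P ≤ 1 := by
    rw [integral_eq_lintegral_of_nonneg_ae (Eventually.of_forall fun ω => Even.pow_nonneg (by decide) _)
      (hVm.pow_const 12).aestronglyMeasurable]
    exact ENNReal.toReal_le_of_le_ofReal zero_le_one (by rwa [ENNReal.ofReal_one])
  have hSI0 : Integrable (fun ω => 2 ^ 11 * (V ω x ^ 12 + C1 ^ 12)) P :=
    (hI12.add (integrable_const _)).const_mul _
  have hSm : Measurable fun ω => (|V ω x| + C1) ^ 12 := by fun_prop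
  have hSI : Integrable (fun ω => (|V ω x| + C1) ^ 12) P := by
    refine hSI0.mono' hSm.aestronglyMeasurable (Eventually.of_forall fun ω => ?_)
    rw [Real.norm_eq_abs, abs_of_nonneg (by positivity)]
    exact hS1 ω
  have hSI' : ∫ ω, (|V ω x| + C1) ^ 12 ∂P ≤ 2 ^ 11 * (1 + C1 ^ 12) := by
    calc ∫ ω, (|V ω x| + C1) ^ 12 ∂P ≤ ∫ ω, 2 ^ 11 * (V ω x ^ 12 + C1 ^ 12) ∂P :=
          integral_mono hSI hSI0 hS1
      _ = 2 ^ 11 * (∫ ω, V ω x ^ 12 ∂P + C1 ^ 12) := by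
        rw [integral_const_mul, integral_add hI12 (integrable_const _), integral_const]
        simp
      _ ≤ _ := by gcongr
  -- pointwise bounds
  have hG : ∀ ω, ∀ b : ℝ, θ / (|V ω x| + C1) ^ 2 ≤ (Gr (HW (T ω) b (V ω)) z x x).im ∧
      ‖Gr (HW (T ω) b (V ω)) z x x‖ ≤ 1 / θ := by
    intro ω b
    rw [hC1]
    exact gim (hRs ω).sa (hTn ω) hθ hz2 hzr x
  have hS0 : ∀ ω, 1 ≤ |V ω x| + C1 := fun ω => by linarith [abs_nonneg (V ω x)]
  have p1 : ∀ ω, hu (Gr (HW (T ω) b (V ω)) z x x) g ^ 2 ≤ M * (|V ω x| + C1) ^ 4 := by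
    intro ω
    obtain ⟨a1, a2⟩ := hG ω b
    have s0 : 0 < |V ω x| + C1 := by linarith [hS0 ω]
    refine (hu_le (D := 1 / θ + C) (by positivity) hc a1 hg1
      ((norm_sub_le _ _).trans (by linarith))).trans (le_of_eq ?_)
    rw [hM]
    field_simp
  have p2 : ∀ ω, hu (Gr (HW (T ω) b' (V ω)) z x x) (Gr (HW (T ω) b (V ω)) z x x) ^ 2 ≤
      ((L ^ 2) ^ 4 / θ ^ 4) * (|V ω x| + C1) ^ 8 / b0 ^ 4 := by
    intro ω
    obtain ⟨a1, a2⟩ := hG ω b
    obtain ⟨a3, a4⟩ := hG ω b'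
    have s0 : 0 < |V ω x| + C1 := by linarith [hS0 ω]
    have a5 := gdiff' (V := V ω) (hRs ω).sa (hTn ω) hb00 hb hb' hθ hz2 hzr x
    rw [← hL] at a5
    refine (hu_le (by positivity) (by positivity) a3 a1 a5).trans (le_of_eq ?_)
    field_simp
  have p3 : ∀ ω, hu (Gr (HW (T ω) b' (V ω)) z x x) g ^ 2 ≤
      (1 + ε) * hu (Gr (HW (T ω) b (V ω)) z x x) g ^ 2 +
        (K * ((L ^ 2) ^ 4 / θ ^ 4) * (1 + M) / b0 ^ 4) * (|V ω x| + C1) ^ 12 := by
    intro ω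
    obtain ⟨a1, a2⟩ := hG ω b
    obtain ⟨a3, a4⟩ := hG ω b'
    have s1 := hS0 ω
    have s0 : 0 < |V ω x| + C1 := by linarith
    have q1 : 0 < (Gr (HW (T ω) b (V ω)) z x x).im := lt_of_lt_of_le (by positivity) a1
    have q2 : 0 < (Gr (HW (T ω) b' (V ω)) z x x).im := lt_of_lt_of_le (by positivity) a3
    have q3 := hhu _ _ g q2 q1 (hc.trans_le hg1)
    have q4 := p1 ω
    have q5 := p2 ω
    have q6 : 1 + hu (Gr (HW (T ω) b (V ω)) z x x) g ^ 2 ≤ (1 + M) * (|V ω x| + C1) ^ 4 := by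
      have : 1 ≤ (|V ω x| + C1) ^ 4 := one_le_pow₀ s1
      linarith
    have q7 : (1 + min ε 1) * hu (Gr (HW (T ω) b (V ω)) z x x) g ^ 2 ≤
        (1 + ε) * hu (Gr (HW (T ω) b (V ω)) z x x) g ^ 2 := by
      have := min_le_left ε 1
      gcongr
    calc _ ≤ _ := q3
      _ ≤ (1 + ε) * hu (Gr (HW (T ω) b (V ω)) z x x) g ^ 2 +
          K * (((L ^ 2) ^ 4 / θ ^ 4) * (|V ω x| + C1) ^ 8 / b0 ^ 4) *
            ((1 + M) * (|V ω x| + C1) ^ 4) := by
        refine add_le_add q7 ?_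
        have : 0 ≤ 1 + hu (Gr (HW (T ω) b (V ω)) z x x) g ^ 2 := by positivity
        gcongr
      _ = _ := by ring
  -- the integrals
  have hgm : Measurable fun ω => hu (Gr (HW (T ω) b (V ω)) z x x) g ^ 2 := by
    have h1 := hmeas b z (by linarith) (by linarith)
    unfold hu
    have h2 : Measurable fun ω => (Gr (HW (T ω) b (V ω)) z x x).im := Complex.measurable_im.comp h1
    have h3 : Measurable fun ω => ‖Gr (HW (T ω) b (V ω)) z x x - g‖ := (h1.sub_const g).norm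
    exact (((h3.pow_const 2).div (h2.mul_const g.im))).pow_const 2
  have hFI : Integrable (fun ω => hu (Gr (HW (T ω) b (V ω)) z x x) g ^ 2) P := by
    refine (hSI.const_mul M).mono' hgm.aestronglyMeasurable (Eventually.of_forall fun ω => ?_)
    rw [Real.norm_eq_abs, abs_of_nonneg (sq_nonneg _)]
    refine (p1 ω).trans ?_
    have : (|V ω x| + C1) ^ 4 ≤ (|V ω x| + C1) ^ 12 := pow_le_pow_right₀ (hS0 ω) (by norm_num)
    gcongr
  have hRI : Integrable (fun ω => (1 + ε) * hu (Gr (HW (T ω) b (V ω)) z x x) g ^ 2 +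
      (K * ((L ^ 2) ^ 4 / θ ^ 4) * (1 + M) / b0 ^ 4) * (|V ω x| + C1) ^ 12) P :=
    (hFI.const_mul _).add (hSI.const_mul _)
  calc ∫ ω, hu (Gr (HW (T ω) b' (V ω)) z x x) g ^ 2 ∂P ≤
      ∫ ω, ((1 + ε) * hu (Gr (HW (T ω) b (V ω)) z x x) g ^ 2 +
        (K * ((L ^ 2) ^ 4 / θ ^ 4) * (1 + M) / b0 ^ 4) * (|V ω x| + C1) ^ 12) ∂P :=
        integral_mono_of_nonneg (Eventually.of_forall fun ω => sq_nonneg _) hRI
          (Eventually.of_forall p3)
    _ = (1 + ε) * ∫ ω, hu (Gr (HW (T ω) b (V ω)) z x x) g ^ 2 ∂P +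
        (K * ((L ^ 2) ^ 4 / θ ^ 4) * (1 + M) / b0 ^ 4) * ∫ ω, (|V ω x| + C1) ^ 12 ∂P := by
      rw [integral_add (hFI.const_mul _) (hSI.const_mul _), integral_const_mul, integral_const_mul]
    _ ≤ (1 + ε) * ∫ ω, hu (Gr (HW (T ω) b (V ω)) z x x) g ^ 2 ∂P +
        (K * ((L ^ 2) ^ 4 / θ ^ 4) * (1 + M) / b0 ^ 4) * (2 ^ 11 * (1 + C1 ^ 12)) := by
      have : 0 ≤ K * ((L ^ 2) ^ 4 / θ ^ 4) * (1 + M) / b0 ^ 4 := by positivity
      gcongr
    _ = (1 + ε) * ∫ ω, hu (Gr (HW (T ω) b (V ω)) z x x) g ^ 2 ∂P + B / b0 ^ 4 := by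
      rw [hB]
      ring
    _ ≤ (1 + ε) * ∫ ω, hu (Gr (HW (T ω) b (V ω)) z x x) g ^ 2 ∂P + ε := by
      have h1 : b0 ≤ b0 ^ 4 := le_self_pow₀ hb01 (by norm_num)
      have h2 : B ≤ ε * b0 ^ 4 := by
        rw [div_le_iff₀ hε] at hb02
        nlinarith
      have h3 : B / b0 ^ 4 ≤ ε := by
        rw [div_le_iff₀ (by positivity)]
        exact h2
      linarith

end Pool.Agent.H860.GA
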